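import Mathlib
import Pool.Agent.X140.ExtProp

/-!
# The 3-ASC index of almost every graph is 3
-/

namespace Pool.Agent.Results.MP_5f8894_co.ThetaThreeIsThree

open Filter Topology Pool.Agent.X140.ExtProp

/-- An `r`-ASC graph: connected, radius `r`, exactly two vertices are not central. -/
def IsASC {W : Type} (r : ℕ) (H : SimpleGraph W) : Prop :=
  H.Connected ∧ H.radius = (r : ℕ∞) ∧ (H.centerᶜ).ncard = 2

/-- The `r`-ASC index of a graph `G` on a finite vertex set `V`. -/
noncomputable def theta {V : Type} [Fintype V] (r : ℕ) (G : SimpleGraph V) : ℕ :=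
  sInf {k : ℕ | ∃ (W : Type) (_ : Fintype W) (H : SimpleGraph W),
    Fintype.card W = Fintype.card V + k ∧ IsASC r H ∧ Nonempty (G ↪g H)}

section basic

variable {W : Type} {H : SimpleGraph W}

theorem le1 {x y : W} (h : H.Adj x y) : H.edist x y ≤ 1 := by
  simpa using (SimpleGraph.Walk.cons h SimpleGraph.Walk.nil).edist_le

theorem le2 {x y z : W} (h : H.Adj x y) (h' : H.Adj y z) : H.edist x z ≤ 2 := by
  have := (SimpleGraph.Walk.cons h (SimpleGraph.Walk.cons h' SimpleGraph.Walk.nil)).edist_le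
  simpa using this

theorem le3 {x y z w : W} (h : H.Adj x y) (h' : H.Adj y z) (h'' : H.Adj z w) :
    H.edist x w ≤ 3 := by
  have := (SimpleGraph.Walk.cons h (SimpleGraph.Walk.cons h'
    (SimpleGraph.Walk.cons h'' SimpleGraph.Walk.nil))).edist_le
  simpa using this

theorem le4 {x y z w v : W} (h : H.Adj x y) (h' : H.Adj y z) (h'' : H.Adj z w)
    (h3 : H.Adj w v) : H.edist x v ≤ 4 := by
  have := (SimpleGraph.Walk.cons h (SimpleGraph.Walk.cons h'
    (SimpleGraph.Walk.cons h'' (SimpleGraph.Walk.cons h3 SimpleGraph.Walk.nil)))).edist_le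
  simpa using this

theorem pot_walk (f : W → ℕ) (hf : ∀ x y, H.Adj x y → f y ≤ f x + 1) {x y : W}
    (p : H.Walk x y) : f y ≤ f x + p.length := by
  induction p with
  | nil => simp
  | cons h p ih =>
    have := hf _ _ h
    rw [SimpleGraph.Walk.length_cons]
    omega

theorem pot (f : W → ℕ) (hf : ∀ x y, H.Adj x y → f y ≤ f x + 1) (x y : W) :
    (f y : ℕ∞) ≤ f x + H.edist x y := by
  by_cases hr : H.Reachable x y
  · obtain ⟨p, hp⟩ := hr.exists_walk_length_eq_edist
    rw [← hp]
    exact_mod_cast pot_walk f hf p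
  · rw [SimpleGraph.edist_eq_top_of_not_reachable hr]
    simp

end basic

section construction

variable {V : Type}

/-- Vertices at distance at least two from both `s` and `u`. -/
def R (G : SimpleGraph V) (s u v : V) : Prop := v ≠ s ∧ v ≠ u ∧ ¬ G.Adj s v ∧ ¬ G.Adj u v

/-- Adjacency of the extension: new vertices `0 = a`, `1 = b`, `2 = c`. -/
def rel (G : SimpleGraph V) (s u : V) : V ⊕ Fin 3 → V ⊕ Fin 3 → Prop
  | .inl v, .inl w => G.Adj v w
  | .inl v, .inr i => (i = 1 ∧ v = s) ∨ (i = 2 ∧ R G s u v)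
  | .inr i, .inl v => (i = 1 ∧ v = s) ∨ (i = 2 ∧ R G s u v)
  | .inr i, .inr j => (i = 0 ∧ j ≠ 0) ∨ (i ≠ 0 ∧ j = 0)

/-- The extension of `G` by the three new vertices. -/
def Hg (G : SimpleGraph V) (s u : V) : SimpleGraph (V ⊕ Fin 3) where
  Adj := rel G s u
  symm := ⟨by
    rintro (v | i) (w | j) h
    · exact G.symm.symm _ _ h
    · exact h
    · exact h
    · rcases h with ⟨h1, h2⟩ | ⟨h1, h2⟩
      · exact Or.inr ⟨h2, h1⟩
      · exact Or.inl ⟨h2, h1⟩⟩
  loopless := ⟨by
    rintro (v | i) h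
    · exact G.loopless.irrefl _ h
    · rcases h with ⟨h1, h2⟩ | ⟨h1, h2⟩
      · exact h2 h1
      · exact h1 h2⟩

theorem common {G : SimpleGraph V} (hE : Ext3 G) (h3 : ∀ x y : V, ∃ z, z ≠ x ∧ z ≠ y) {x y : V}
    (hxy : x ≠ y) : ∃ w, G.Adj x w ∧ G.Adj w y := by
  obtain ⟨z, hzx, hzy⟩ := h3 x y
  obtain ⟨w, _, _, _, h1, h2, _⟩ := hE x y z hxy hzx.symm hzy.symm true true true
  exact ⟨w, (h1.mpr rfl).symm, h2.mpr rfl⟩

theorem nonadj {G : SimpleGraph V} (hE : Ext3 G) (h3 : ∀ x y : V, ∃ z, z ≠ x ∧ z ≠ y) (x : V) :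
    ∃ w, w ≠ x ∧ ¬ G.Adj x w := by
  obtain ⟨y, hyx, _⟩ := h3 x x
  obtain ⟨z, hzx, hzy⟩ := h3 x y
  obtain ⟨w, h0, _, _, h1, _, _⟩ := hE x y z hyx.symm hzx.symm hzy.symm false false false
  refine ⟨w, h0, fun h => ?_⟩
  have := h1.mp h.symm
  simp at this

theorem toR {G : SimpleGraph V} (hE : Ext3 G) {s u : V} (hsu : s ≠ u) {v : V} (hvs : v ≠ s)
    (hvu : v ≠ u) : ∃ w, R G s u w ∧ G.Adj v w := by
  obtain ⟨w, h0, h0', _, h1, h2, h3⟩ := hE s u v hsu hvs.symm hvu.symm false false true
  refine ⟨w, ⟨h0, h0', fun h => ?_, fun h => ?_⟩, (h3.mpr rfl).symm⟩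
  · have := h1.mp h.symm
    simp at this
  · have := h2.mp h.symm
    simp at this

variable {G : SimpleGraph V} {s u : V}

theorem adj_ab : (Hg G s u).Adj (.inr 0) (.inr 1) := Or.inl ⟨rfl, by decide⟩
theorem adj_ac : (Hg G s u).Adj (.inr 0) (.inr 2) := Or.inl ⟨rfl, by decide⟩
theorem adj_sb : (Hg G s u).Adj (.inl s) (.inr 1) := Or.inl ⟨rfl, rfl⟩
theorem adj_Rc {v : V} (h : R G s u v) : (Hg G s u).Adj (.inl v) (.inr 2) := Or.inr ⟨rfl, h⟩
theorem adj_inl {v w : V} (h : G.Adj v w) : (Hg G s u).Adj (.inl v) (.inl w) := h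

theorem edist_inl_inl (hE : Ext3 G) (h3 : ∀ x y : V, ∃ z, z ≠ x ∧ z ≠ y) (v w : V) :
    (Hg G s u).edist (.inl v) (.inl w) ≤ 2 := by
  by_cases h : v = w
  · subst h
    simp
  · obtain ⟨z, h1, h2⟩ := common hE h3 h
    exact le2 (adj_inl h1) (adj_inl h2)

theorem edist_v_a (hE : Ext3 G) (hsu : s ≠ u) {v : V} (hv : v ≠ u) :
    (Hg G s u).edist (.inl v) (.inr 0) ≤ 3 := by
  by_cases h : v = s
  · subst h
    exact (le2 adj_sb adj_ab.symm).trans (by norm_num)
  · obtain ⟨w, hw, hvw⟩ := toR hE hsu h hv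
    exact le3 (adj_inl hvw) (adj_Rc hw) adj_ac.symm

theorem edist_v_b (hE : Ext3 G) (h3 : ∀ x y : V, ∃ z, z ≠ x ∧ z ≠ y) (v : V) :
    (Hg G s u).edist (.inl v) (.inr 1) ≤ 3 := by
  by_cases h : v = s
  · subst h
    exact (le1 adj_sb).trans (by norm_num)
  · obtain ⟨w, h1, h2⟩ := common hE h3 h
    exact le3 (adj_inl h1) (adj_inl h2) adj_sb

theorem edist_v_c (hE : Ext3 G) (h3 : ∀ x y : V, ∃ z, z ≠ x ∧ z ≠ y) (hsu : s ≠ u)
    (hna : ¬ G.Adj s u) (v : V) :
    (Hg G s u).edist (.inl v) (.inr 2) ≤ 3 := by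
  by_cases h : v = s
  · subst h
    exact le3 adj_sb adj_ab.symm adj_ac
  · by_cases h' : v = u
    · subst h'
      obtain ⟨v1, h1, h2⟩ := common hE h3 (show v ≠ s from h)
      have hv1s : v1 ≠ s := h2.ne
      have hv1u : v1 ≠ v := h1.ne'
      obtain ⟨w, hw, hvw⟩ := toR hE hsu hv1s hv1u
      exact le3 (adj_inl h1) (adj_inl hvw) (adj_Rc hw)
    · obtain ⟨w, hw, hvw⟩ := toR hE hsu h h'
      exact (le2 (adj_inl hvw) (adj_Rc hw)).trans (by norm_num)

theorem edist_a_u (hE : Ext3 G) (h3 : ∀ x y : V, ∃ z, z ≠ x ∧ z ≠ y) (hsu : s ≠ u) :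
    (Hg G s u).edist (.inr 0) (.inl u) ≤ 4 := by
  obtain ⟨w, h1, h2⟩ := common hE h3 hsu
  exact le4 adj_ab adj_sb.symm (adj_inl h1) (adj_inl h2)

open Classical in
/-- Potential for the distance from `a`. -/
noncomputable def f (G : SimpleGraph V) (s u : V) : V ⊕ Fin 3 → ℕ
  | .inl v => if v = u then 4 else if v = s ∨ R G s u v then 2 else 3
  | .inr i => if i = 0 then 0 else 1

theorem edist_a_u_ge (hsu : s ≠ u) (hna : ¬ G.Adj s u) :
    4 ≤ (Hg G s u).edist (.inr 0) (.inl u) := by
  classical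
  have h := pot (H := Hg G s u) (f G s u) (by
    rintro (v | i) (w | j) h
    · have h' : G.Adj v w := h
      simp only [f]
      by_cases hwu : w = u
      · subst hwu
        have hvu : v ≠ w := h'.ne
        have hvs : v ≠ s := by rintro rfl; exact hna h'
        have hR : ¬ R G s w v := fun hR => hR.2.2.2 h'.symm
        simp [hvu, hvs, hR]
      · by_cases hvu : v = u
        · subst hvu
          simp only [if_true, hwu, if_false]
          split_ifs <;> omega
        · simp only [hwu, hvu, if_false]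
          split_ifs <;> omega
    · simp only [f]
      split_ifs <;> omega
    · rcases h with ⟨h1, h2⟩ | ⟨h1, h2⟩
      · subst h1; subst h2
        simp [f, hsu]
      · subst h1
        simp [f, h2.2.1, h2]
    · simp only [f]
      split_ifs <;> omega) (.inr 0) (.inl u)
  simpa [f] using h

theorem three_le_of {W : Type} {H : SimpleGraph W} {x y : W} (h1 : x ≠ y) (h2 : ¬ H.Adj x y)
    (h3 : ∀ z, H.Adj x z → ¬ H.Adj z y) : 3 ≤ H.edist x y := by
  by_contra hlt
  push Not at hlt
  have hne : H.edist x y ≠ ⊤ := ne_top_of_lt hlt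
  obtain ⟨p, hp⟩ := SimpleGraph.exists_walk_of_edist_ne_top hne
  rw [← hp] at hlt
  have hlen : p.length < 3 := by exact_mod_cast hlt
  cases p with
  | nil => exact h1 rfl
  | cons h p =>
    cases p with
    | nil => exact h2 h
    | cons h' p =>
      cases p with
      | nil => exact h3 _ h h'
      | cons h'' p =>
        simp only [SimpleGraph.Walk.length_cons] at hlen
        omega

theorem ecc_ge (hE : Ext3 G) (hsu : s ≠ u) (hna : ¬ G.Adj s u) (x : V ⊕ Fin 3) :
    3 ≤ (Hg G s u).eccent x := by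
  have hsc : 3 ≤ (Hg G s u).edist (.inl s) (.inr 2) := by
    refine three_le_of (by simp) ?_ ?_
    · rintro (⟨h, _⟩ | ⟨_, h⟩)
      · exact absurd h (by decide)
      · exact h.1 rfl
    · rintro (v | i) h
      · rintro (⟨h', _⟩ | ⟨_, h'⟩)
        · exact absurd h' (by decide)
        · exact h'.2.2.1 h
      · rcases h with ⟨h1, _⟩ | ⟨_, h1⟩
        · subst h1
          rintro (⟨h', _⟩ | ⟨_, h'⟩)
          · exact absurd h' (by decide)
          · exact absurd h' (by decide)
        · exact absurd rfl h1.1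
  rcases x with v | i
  · by_cases hvs : v = s
    · subst hvs
      exact hsc.trans SimpleGraph.edist_le_eccent
    · by_cases hR : R G s u v
      · refine le_trans ?_ (SimpleGraph.edist_le_eccent (v := .inr 1))
        refine three_le_of (by simp) ?_ ?_
        · rintro (⟨_, h⟩ | ⟨h, _⟩)
          · exact hvs h
          · exact absurd h (by decide)
        · rintro (w | i) h
          · rintro (⟨_, h'⟩ | ⟨h', _⟩)
            · subst h'
              exact hR.2.2.1 (G.symm.symm _ _ h)
            · exact absurd h' (by decide)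
          · rcases h with ⟨_, h1⟩ | ⟨h1, _⟩
            · exact absurd h1 hvs
            · subst h1
              rintro (⟨h', _⟩ | ⟨_, h'⟩)
              · exact absurd h' (by decide)
              · exact absurd h' (by decide)
      · refine le_trans ?_ (SimpleGraph.edist_le_eccent (v := .inr 0))
        refine three_le_of (by simp) ?_ ?_
        · rintro (⟨_, h⟩ | ⟨_, h⟩)
          · exact hvs h
          · exact hR h
        · rintro (w | i) h
          · rintro (⟨h', _⟩ | ⟨h', _⟩)
            · exact absurd h' (by decide)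
            · exact absurd h' (by decide)
          · rcases h with ⟨_, h1⟩ | ⟨_, h1⟩
            · exact absurd h1 hvs
            · exact absurd h1 hR
  · fin_cases i
    · refine le_trans ?_ (SimpleGraph.edist_le_eccent (v := .inl u))
      exact le_trans (by norm_num) (edist_a_u_ge hsu hna)
    · refine le_trans ?_ (SimpleGraph.edist_le_eccent (v := .inl u))
      refine three_le_of (by simp) ?_ ?_
      · rintro (⟨_, h⟩ | ⟨h, _⟩)
        · exact hsu h.symm
        · exact absurd h (by decide)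
      · rintro (w | i) h
        · rcases h with ⟨_, h1⟩ | ⟨h1, _⟩
          · subst h1
            exact hna
          · exact absurd h1 (by decide)
        · rcases h with ⟨h1, _⟩ | ⟨_, h1⟩
          · exact absurd h1 (by decide)
          · subst h1
            rintro (⟨h', _⟩ | ⟨h', _⟩)
            · exact absurd h' (by decide)
            · exact absurd h' (by decide)
    · refine le_trans ?_ (SimpleGraph.edist_le_eccent (v := .inl s))
      rw [SimpleGraph.edist_comm]
      exact hsc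

theorem ecc_le (hE : Ext3 G) (h3 : ∀ x y : V, ∃ z, z ≠ x ∧ z ≠ y) (hsu : s ≠ u)
    (hna : ¬ G.Adj s u) (x : V ⊕ Fin 3) (hx1 : x ≠ .inr 0) (hx2 : x ≠ .inl u) :
    (Hg G s u).eccent x ≤ 3 := by
  rw [SimpleGraph.eccent_le_iff]
  rcases x with v | i
  · have hv : v ≠ u := fun h => hx2 (by rw [h])
    rintro (w | j)
    · exact (edist_inl_inl hE h3 v w).trans (by norm_num)
    · fin_cases j
      · exact edist_v_a hE hsu hv
      · exact edist_v_b hE h3 v
      · exact edist_v_c hE h3 hsu hna v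
  · fin_cases i
    · exact absurd rfl hx1
    · rintro (w | j)
      · rw [SimpleGraph.edist_comm]
        exact edist_v_b hE h3 w
      · fin_cases j
        · exact (le1 adj_ab.symm).trans (by norm_num)
        · simp
        · exact (le2 adj_ab.symm adj_ac).trans (by norm_num)
    · rintro (w | j)
      · rw [SimpleGraph.edist_comm]
        exact edist_v_c hE h3 hsu hna w
      · fin_cases j
        · exact (le1 adj_ac.symm).trans (by norm_num)
        · exact (le2 adj_ac.symm adj_ab).trans (by norm_num)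
        · simp

theorem isASC (hE : Ext3 G) (h3 : ∀ x y : V, ∃ z, z ≠ x ∧ z ≠ y) (hsu : s ≠ u)
    (hna : ¬ G.Adj s u) [Finite V] : IsASC 3 (Hg G s u) := by
  have hb1 : (.inr 1 : V ⊕ Fin 3) ≠ .inr 0 := by simp
  have hb2 : (.inr 1 : V ⊕ Fin 3) ≠ .inl u := by simp
  have hrad : (Hg G s u).radius = ((3 : ℕ) : ℕ∞) := by
    apply le_antisymm
    · exact (SimpleGraph.radius_le_eccent).trans (ecc_le hE h3 hsu hna (.inr 1) hb1 hb2)
    · rw [SimpleGraph.radius]
      exact le_iInf fun x => ecc_ge hE hsu hna x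
  have hne : Nonempty (V ⊕ Fin 3) := ⟨.inr 0⟩
  refine ⟨?_, hrad, ?_⟩
  · rw [← SimpleGraph.radius_ne_top_iff, hrad]
    exact ENat.coe_ne_top 3
  · have hset : (Hg G s u).centerᶜ = {.inr 0, .inl u} := by
      ext x
      rw [Set.mem_compl_iff, SimpleGraph.mem_center_iff, hrad]
      constructor
      · intro h
        by_contra hx
        simp only [Set.mem_insert_iff, Set.mem_singleton_iff, not_or] at hx
        exact h (le_antisymm (ecc_le hE h3 hsu hna x hx.1 hx.2) (ecc_ge hE hsu hna x))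
      · intro hx h
        simp only [Set.mem_insert_iff, Set.mem_singleton_iff] at hx
        have h4 := edist_a_u_ge hsu hna
        rcases hx with rfl | rfl
        · have := h4.trans (SimpleGraph.edist_le_eccent)
          rw [h] at this
          exact absurd this (by norm_num)
        · rw [SimpleGraph.edist_comm] at h4
          have := h4.trans (SimpleGraph.edist_le_eccent)
          rw [h] at this
          exact absurd this (by norm_num)
    rw [hset, Set.ncard_pair (by simp)]

end construction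

theorem lower {V : Type} [Fintype V] {G : SimpleGraph V} (hE : Ext3 G)
    (h3 : ∀ x y : V, ∃ z, z ≠ x ∧ z ≠ y) [Nonempty V] {W : Type} [Fintype W] {H : SimpleGraph W}
    {k : ℕ} (hcard : Fintype.card W = Fintype.card V + k) (hH : IsASC 3 H) (φ : G ↪g H) :
    3 ≤ k := by
  classical
  by_contra hk
  push Not at hk
  obtain ⟨hconn, hrad, -⟩ := hH
  have hWne : Nonempty W := hconn.nonempty
  -- new vertices
  have hN : ((Set.range φ)ᶜ).ncard = k := by
    rw [Set.ncard_compl, Nat.card_eq_fintype_card, hcard, ← Set.image_univ,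
      Set.ncard_image_of_injective _ φ.injective, Set.ncard_univ, Nat.card_eq_fintype_card]
    omega
  have hGG : ∀ v w : V, H.edist (φ v) (φ w) ≤ 2 := by
    intro v w
    by_cases h : v = w
    · subst h; simp
    · obtain ⟨z, h1, h2⟩ := common hE h3 h
      exact le2 (φ.map_rel_iff.mpr h1) (φ.map_rel_iff.mpr h2)
  have hfar : ∀ v : V, ∃ x, x ∉ Set.range φ ∧ 3 ≤ H.edist (φ v) x := by
    intro v
    obtain ⟨x, hx⟩ := SimpleGraph.exists_edist_eq_eccent_of_finite (G := H) (φ v)
    have h1 : 3 ≤ H.edist (φ v) x := by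
      rw [hx]
      have : H.radius ≤ H.eccent (φ v) := SimpleGraph.radius_le_eccent
      rw [hrad] at this
      exact this
    refine ⟨x, ?_, h1⟩
    rintro ⟨w, rfl⟩
    exact absurd (h1.trans (hGG v w)) (by norm_num)
  -- a new vertex adjacent to an old one
  obtain ⟨v₀⟩ := ‹Nonempty V›
  obtain ⟨x₀, hx₀, -⟩ := hfar v₀
  obtain ⟨p⟩ := hconn.preconnected (φ v₀) x₀
  obtain ⟨d, -, hd1, hd2⟩ := p.exists_boundary_dart (Set.range φ) ⟨v₀, rfl⟩ hx₀
  obtain ⟨v, hv⟩ := hd1
  set x := d.snd with hxdef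
  have hvx : H.Adj (φ v) x := by
    have := d.adj
    rw [← hv] at this
    exact this
  obtain ⟨x', hx', hfx'⟩ := hfar v
  have hxx' : x' ≠ x := by
    rintro rfl
    exact absurd (hfx'.trans (le1 hvx)) (by norm_num)
  -- the new vertices are exactly `x, x'`
  have hsub : ({x, x'} : Set W) ⊆ (Set.range φ)ᶜ := by
    rintro y (rfl | rfl)
    · exact hd2
    · exact hx'
  have heq : ({x, x'} : Set W) = (Set.range φ)ᶜ := by
    apply Set.eq_of_subset_of_ncard_le hsub _ (Set.toFinite _)
    rw [hN, Set.ncard_pair hxx'.symm]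
    omega
  -- a neighbour of `x'`
  have hnontriv : Nontrivial W := ⟨x', x, hxx'⟩
  obtain ⟨y, hy⟩ : ∃ y, H.Adj x' y := by
    obtain ⟨q⟩ := hconn.preconnected x' x
    cases q with
    | nil => exact absurd rfl hxx'
    | cons h q => exact ⟨_, h⟩
  have hyx : y ≠ x := by
    rintro rfl
    exact absurd (hfx'.trans (le2 hvx hy.symm)) (by norm_num)
  have hyx' : y ≠ x' := hy.ne'
  have hyr : y ∈ Set.range φ := by
    by_contra hcon
    have : y ∈ ({x, x'} : Set W) := by rw [heq]; exact hcon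
    rcases this with h | h
    · exact hyx h
    · exact hyx' h
  obtain ⟨v', rfl⟩ := hyr
  have hvv' : v ≠ v' := by
    rintro rfl
    exact absurd (hfx'.trans (le1 hy.symm)) (by norm_num)
  obtain ⟨w, hw1, hw2⟩ := common hE h3 hvv'
  obtain ⟨x'', hx'', hfx''⟩ := hfar w
  have hmem : x'' ∈ ({x, x'} : Set W) := by rw [heq]; exact hx''
  rcases hmem with rfl | h
  · exact absurd (hfx''.trans (le2 (φ.map_rel_iff.mpr hw1.symm) hvx)) (by norm_num)
  · have h' : x'' = x' := h
    subst h'
    exact absurd (hfx''.trans (le2 (φ.map_rel_iff.mpr hw2) hy.symm)) (by norm_num)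

/-- `θ₃ = 3` for every graph on at least three vertices with the extension property. -/
theorem theta_eq {n : ℕ} (hn : 3 ≤ n) (G : SimpleGraph (Fin n)) (hE : Ext3 G) :
    theta 3 G = 3 := by
  have h3 : ∀ x y : Fin n, ∃ z, z ≠ x ∧ z ≠ y := by
    intro x y
    have : ∃ z, z ∉ ({x, y} : Finset (Fin n)) := by
      by_contra hcon
      push Not at hcon
      have h1 : (Finset.univ : Finset (Fin n)) ⊆ {x, y} := fun z _ => hcon z
      have h2 := (Finset.card_le_card h1).trans Finset.card_le_two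
      rw [Finset.card_univ, Fintype.card_fin] at h2
      omega
    obtain ⟨z, hz⟩ := this
    simp only [Finset.mem_insert, Finset.mem_singleton, not_or] at hz
    exact ⟨z, hz.1, hz.2⟩
  have hne : Nonempty (Fin n) := ⟨⟨0, by omega⟩⟩
  obtain ⟨u⟩ := hne
  have hne : Nonempty (Fin n) := ⟨u⟩
  obtain ⟨s, hs, hsa⟩ := nonadj hE h3 u
  have hsa' : ¬ G.Adj s u := fun h => hsa h.symm
  have hmem : 3 ∈ {k : ℕ | ∃ (W : Type) (_ : Fintype W) (H : SimpleGraph W),
      Fintype.card W = Fintype.card (Fin n) + k ∧ IsASC 3 H ∧ Nonempty (G ↪g H)} :=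
    ⟨Fin n ⊕ Fin 3, inferInstance, Hg G s u, by simp, isASC hE h3 hs hsa',
      ⟨⟨⟨Sum.inl, Sum.inl_injective⟩, Iff.rfl⟩⟩⟩
  unfold theta
  apply le_antisymm (Nat.sInf_le hmem)
  apply le_csInf ⟨3, hmem⟩
  rintro k ⟨W, hW, H, hcard, hASC, ⟨φ⟩⟩
  exact lower hE h3 hcard hASC φ

/-- **Almost every graph has 3-ASC index equal to 3.** -/
theorem result : Tendsto (fun n : ℕ =>
    ({G : SimpleGraph (Fin n) | theta 3 G = 3}.ncard : ℝ) /
      (Nat.card (SimpleGraph (Fin n)) : ℝ)) atTop (𝓝 1) :=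
  almost_all (fun _ G => theta 3 G = 3) 3 (fun _ hn G hE => theta_eq hn G hE)

end Pool.Agent.Results.MP_5f8894_co.ThetaThreeIsThree
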